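import Pool.Agent.Y537.PM.Fin

set_option autoImplicit false

/-!
# Norms which are differentiable at every point with one of countably many moduli

A Banach space `X` has an equivalent uniformly smooth norm if and only if it contains no copy of
`c_0` and has an equivalent norm `p` such that for some countable family of moduli `ω n t = o(t)`
and for every `x ≠ 0` and every direction `h` one of the moduli, which may depend on `x` and `h`,
bounds the second differences `p (x + t h) + p (x - t h) - 2 p x` for all small `t > 0`.  Every such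
space is superreflexive.  For the moduli `K t ^ r` with a fixed exponent `1 < r ≤ 2` one gets a norm
with a modulus of smoothness of power type `r`, and if the exponent `r > 1` is allowed to depend on
`x` and `h` one gets a norm of power type for some exponent larger than `1`.  Instead of norms one
can take continuous convex functions with a bounded sublevel set.

The case of twice Gateaux differentiable norms (`r = 2`) is the question of the problem.

(Countability cannot be dropped: reflexive spaces which are not superreflexive have equivalent norms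
which are Frechet differentiable off the origin.)
-/

namespace Pool.Agent.Results.MP_b4da01_an.CountablyManyModuli

open Filter Topology
open Pool.Agent.Results.MP_b4da01_an.SuperreflexiveYes
open Pool.Agent.Y537.PM

universe u v

/-- **Theorem.** Let `X` be a real Banach space.

(1), (2) `X` has an equivalent uniformly smooth norm if and only if `X` contains no copy of `c_0` and
`X` has an equivalent norm (a continuous convex function with a bounded sublevel set) whose second
differences at every point `x ≠ 0` (every point `x`) in every direction are bounded near `0` by a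
member of a countable family of moduli `ω n t = o(t)`.

(3) The same for power type `1 < r ≤ 2` and the moduli `K t ^ r`, where `K` may depend on the point
and on the direction.

(4) The same for power types larger than `1`, where the exponent `r > 1` and `K` may depend on the
point and on the direction.

(5) Uniformly smooth renormable spaces are superreflexive.

(6) In particular, if `X` contains no copy of `c_0` and `X` admits a twice Gateaux differentiable
norm, or a twice Gateaux differentiable convex function with a bounded sublevel set, then `X` has an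
equivalent norm of power type `2` and `X` is superreflexive. -/
theorem result (X : Type u) [NormedAddCommGroup X] [NormedSpace ℝ X] [CompleteSpace X] :
    (USRenormable X ↔ ¬ ContainsC0 X ∧ ∃ ω : ℕ → ℝ → ℝ, SmallModuli ω ∧
      ∃ p : Seminorm ℝ X, EquivNorm p ∧ ∀ x : X, x ≠ 0 → ∀ h : X,
        ∃ n : ℕ, ∀ᶠ t in 𝓝[>] (0 : ℝ), sd p x h t ≤ ω n t) ∧
    (USRenormable X ↔ ¬ ContainsC0 X ∧ ∃ ω : ℕ → ℝ → ℝ, SmallModuli ω ∧
      ∃ f : X → ℝ, ConvexWell f ∧ ∀ x h : X,
        ∃ n : ℕ, ∀ᶠ t in 𝓝[>] (0 : ℝ), sd f x h t ≤ ω n t) ∧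
    (∀ r : ℝ, 1 < r → r ≤ 2 →
      (PowerRenormable r X ↔ ¬ ContainsC0 X ∧
        ∃ p : Seminorm ℝ X, EquivNorm p ∧ ∀ x : X, x ≠ 0 → ∀ h : X,
          ∃ K : ℝ, ∀ᶠ t in 𝓝[>] (0 : ℝ), sd p x h t ≤ K * t ^ r) ∧
      (PowerRenormable r X ↔ ¬ ContainsC0 X ∧
        ∃ f : X → ℝ, ConvexWell f ∧ ∀ x h : X,
          ∃ K : ℝ, ∀ᶠ t in 𝓝[>] (0 : ℝ), sd f x h t ≤ K * t ^ r)) ∧
    ((∃ r : ℝ, 1 < r ∧ PowerRenormable r X) ↔ ¬ ContainsC0 X ∧
      ∃ p : Seminorm ℝ X, EquivNorm p ∧ ∀ x : X, x ≠ 0 → ∀ h : X,
        ∃ r : ℝ, 1 < r ∧ ∃ K : ℝ, ∀ᶠ t in 𝓝[>] (0 : ℝ), sd p x h t ≤ K * t ^ r) ∧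
    (USRenormable X → SuperReflexive.{u, v} X) ∧
    (¬ ContainsC0 X → (AdmitsTwiceGateauxNorm X ∨
        ∃ f : X → ℝ, ConvexWell f ∧ ∀ x : X, TwiceGateauxAt f x) →
      PowerRenormable 2 X ∧ SuperReflexive.{u, v} X) := by
  have hpu : ∀ r : ℝ, 1 < r → PowerRenormable r X → USRenormable X := by
    rintro r hr ⟨q, hq, hqr⟩
    exact ⟨q, hq, powerType_us q hr hqr⟩
  refine ⟨⟨fun h => ⟨no_c0_of_us h, ?_⟩, ?_⟩, ⟨fun h => ⟨no_c0_of_us h, ?_⟩, ?_⟩,
    fun r hr hr2 => ⟨⟨fun h => ⟨no_c0_of_us (hpu r hr h), ?_⟩, ?_⟩,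
      ⟨fun h => ⟨no_c0_of_us (hpu r hr h), ?_⟩, ?_⟩⟩, ⟨?_, ?_⟩,
    superReflexive_of_us, ?_⟩
  · obtain ⟨q, hq, hqs⟩ := h
    obtain ⟨ω, hω, hx⟩ := moduli_of_us q hq hqs
    exact ⟨ω, hω, q, hq, hx⟩
  · rintro ⟨hc, ω, hω, p, hp, hx⟩
    exact us_of_moduli hc ω hω p hp hx
  · obtain ⟨q, hq, hqs⟩ := h
    obtain ⟨ω, hω, hx⟩ := moduli_of_us q hq hqs
    obtain ⟨ω', hω', hx'⟩ := square_of_norm q ω hω hx
    exact ⟨ω', hω', fun x => q x ^ 2, well_of_norm q hq, hx'⟩
  · rintro ⟨hc, ω, hω, f, hf, hx⟩
    exact us_of_convex hc ω hω f hf hx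
  · obtain ⟨q, hq, hqr⟩ := h
    exact ⟨q, hq, fun x hx h => lines_of_powerType q hq hqr x hx h⟩
  · rintro ⟨hc, p, hp, hx⟩
    exact power_of_norm hc hr hr2 p hp hx
  · obtain ⟨q, hq, hqr⟩ := h
    exact ⟨fun x => q x ^ 2, well_of_norm q hq, square_of_power q hq hr2 hqr⟩
  · rintro ⟨hc, f, hf, hx⟩
    exact power_of_convex hc hr hr2 f hf hx
  · rintro ⟨r, hr, q, hq, hqr⟩
    refine ⟨no_c0_of_us (hpu r hr ⟨q, hq, hqr⟩), q, hq, fun x hx h => ⟨r, hr, ?_⟩⟩
    exact lines_of_powerType q hq hqr x hx h
  · rintro ⟨hc, p, hp, hx⟩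
    exact power_of_norm_var hc p hp hx
  · intro hc hd
    have h2 : PowerRenormable 2 X := by
      rcases hd with ⟨p, hp, hx⟩ | ⟨f, hf, hx⟩
      · exact power_of_norm hc one_lt_two le_rfl p hp fun x h0 h =>
          lines_of_twiceGateaux (fun y => p y) (norm_convex p) x (hx x h0) h
      · exact power_of_convex hc one_lt_two le_rfl f hf fun x h =>
          lines_of_twiceGateaux f hf.1 x (hx x) h
    exact ⟨h2, superReflexive_of_us (hpu 2 one_lt_two h2)⟩

end Pool.Agent.Results.MP_b4da01_an.CountablyManyModuli
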